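import Pool.Agent.U710.UF.C
import Pool.Agent.H47R4.Two2

/-!
# Sums of distinct unit fractions: a gap `≥ 3` in every window of ratio `3 + ε`

The question is whether every solution of `1 = 1 / x₁ + ... + 1 / x_k`, `x₁ < ... < x_k`, `k ≥ 2`, has a gap
`x_{i+1} - x_i ≥ 3`. Let `X` be a finite set of positive integers with rational sum of reciprocals `r`.

1. For all `ε > 0` and `M`: in every window `[u, (3 + ε) u]` inside `[min X, max X]` with `u ≥ max X / M` and `u ≥ x₀`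
   (`x₀` depends on `r, ε, M` only) there is a gap `≥ 3`.
2. So among the `X` with `max X ≥ (3 + ε) min X` only finitely many have no gap `≥ 3`.
3. If `r > log 3` (for example `r = 2, 3, ...`) then ALL `X`, with finitely many exceptions, have a gap `≥ 3`.
4. For `r = 1` (here `max X / min X` is at least `e - o(1)`, and a set without gap `≥ 3` has ratio at most `e ^ 2`): all but
   finitely many exceptional solutions have ratio `≤ 3 + ε`, contain all integers between `min X` and `max X` except a set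
   with sum of reciprocals at most `log 3 - 1 + ε < 1 / 10`,
5. and their scales are lacunary: for every `C`, if `X`, `Y` are exceptional, `min X` is large and
   `min Y ≥ 1.52 min X`, then `min Y > C min X`.

Proof: if `n` and `n + 1` have prime factors larger than `max X / M` then they are not in `X` (consider the sum modulo these
primes). Such `n` in every window of ratio `3 + ε`, and in one of two windows of ratio `2`, are given by a localised
coloured Maynard-Tao theorem from the starting files (`Pool.Agent.H47R4`).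
-/

set_option autoImplicit false

namespace Pool.Agent.Results.MP_1ea053_nt.WideSolutions

open Finset

/-- `X` is a finite set of positive integers with sum of reciprocals `r` -/
def IsSol (r : ℚ) (X : Finset ℕ) : Prop := (∀ x ∈ X, 1 ≤ x) ∧ ∑ x ∈ X, (1 : ℚ) / (x : ℚ) = r

/-- `X` has consecutive elements `a < b` with `b - a ≥ 3` and `a < v`, `u < b` -/
def GapIn (X : Finset ℕ) (u v : ℝ) : Prop :=
  ∃ a ∈ X, ∃ b ∈ X, a + 3 ≤ b ∧ (∀ z ∈ X, z ≤ a ∨ b ≤ z) ∧ (a : ℝ) < v ∧ u < b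

/-- `X` has consecutive elements `a < b` with `b - a ≥ 3` -/
def BigGap (X : Finset ℕ) : Prop := ∃ a ∈ X, ∃ b ∈ X, a + 3 ≤ b ∧ ∀ z ∈ X, z ≤ a ∨ b ≤ z

theorem result :
    (∀ (r : ℚ) (ε : ℝ), 0 < ε → ∀ M : ℕ, ∃ x₀ : ℝ, ∀ X : Finset ℕ, IsSol r X →
      ∀ u : ℝ, x₀ ≤ u → (∀ x ∈ X, (x : ℝ) ≤ M * u) → (∃ x ∈ X, (x : ℝ) < u) → (∃ x ∈ X, (3 + ε) * u ≤ x) →
        GapIn X u ((3 + ε) * u)) ∧
    (∀ (r : ℚ) (ε : ℝ), 0 < ε →
      {X : Finset ℕ | IsSol r X ∧ (∃ a ∈ X, ∃ b ∈ X, (3 + ε) * a ≤ b) ∧ ¬ BigGap X}.Finite) ∧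
    (∀ r : ℚ, Real.log 3 < r → {X : Finset ℕ | IsSol r X ∧ ¬ BigGap X}.Finite) ∧
    (∀ ε : ℝ, 0 < ε → {X : Finset ℕ | IsSol 1 X ∧ ¬ BigGap X ∧ ¬ ∀ a ∈ X, ∀ b ∈ X, (∀ x ∈ X, a ≤ x ∧ x ≤ b) →
      (b : ℝ) ≤ (3 + ε) * a ∧ (∑ n ∈ (Icc a b).filter (fun n => n ∉ X), (1 : ℝ) / n) ≤ Real.log 3 - 1 + ε}.Finite) ∧
    (∀ C : ℕ, ∃ x₀ : ℕ, ∀ X Y : Finset ℕ, IsSol 1 X → IsSol 1 Y → ¬ BigGap X → ¬ BigGap Y →
      ∀ a ∈ X, ∀ b ∈ Y, (∀ x ∈ X, a ≤ x) → (∀ y ∈ Y, b ≤ y) → x₀ ≤ a → 152 * a ≤ 100 * b → C * a < b) := by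
  have HP : Pool.Agent.U710.UF.Pairs := Pool.Agent.H47R4.window
  have HT : Pool.Agent.U710.UF.TwoPairs := Pool.Agent.H47R4.two_windows
  refine ⟨?_, ?_, ?_, ?_, ?_⟩
  · intro r ε hε M
    obtain ⟨x₀, -, h⟩ := Pool.Agent.U710.UF.windows HP r ε hε M
    exact ⟨x₀, h⟩
  · exact fun r ε hε => Pool.Agent.U710.UF.wide HP r ε hε
  · exact fun r hr => Pool.Agent.U710.UF.large_sum HP r hr
  · exact fun ε hε => Pool.Agent.U710.UF.nearly_full HP ε hε
  · exact fun C => Pool.Agent.U710.UF.scales HP HT C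

end Pool.Agent.Results.MP_1ea053_nt.WideSolutions
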